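import Pool.Agent.Helper82.Pak.PTG

/-! Piece PT-G, second part: the Euler characteristic. -/

namespace Pool.Agent.Helper63.Pak

open IntermediateField Pool.Agent.Helper11

variable {Ω : Type} [Field Ω] [Algebra ℂ Ω]

omit [Field Ω] [Algebra ℂ Ω] in
lemma finsum_single_le_one {α : Type} (f : α → ℤ) (s : Set α) (hfin : (s ∩ Function.support f).Finite)
    (hpos : ∀ a ∈ s, 0 < f a) (hsum : ∑ᶠ a ∈ s, f a = 1) {a : α} (ha : a ∈ s) : f a = 1 := by
  classical
  have h1 : ∑ᶠ a ∈ s, f a = ∑ a ∈ hfin.toFinset, f a := finsum_mem_eq_sum f hfin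
  rw [h1] at hsum
  have hmem : a ∈ hfin.toFinset := by
    rw [Set.Finite.mem_toFinset]
    exact ⟨ha, (hpos a ha).ne'⟩
  have h2 : f a ≤ ∑ a ∈ hfin.toFinset, f a := by
    apply Finset.single_le_sum (f := f) _ hmem
    intro b hb
    rw [Set.Finite.mem_toFinset] at hb
    exact (hpos b hb.1).le
  have h3 := hpos a ha
  omega

lemma ff_adjoin {t : Ω} (htr : Transcendental ℂ t) : FF ℂ⟮t⟯ := by
  refine ⟨⟨{t}, by simp⟩, ?_⟩
  intro h
  have h1 : t ∈ (⊥ : IntermediateField ℂ Ω) := h ▸ IntermediateField.mem_adjoin_simple_self ℂ t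
  rw [IntermediateField.mem_bot] at h1
  obtain ⟨c, rfl⟩ := h1
  exact htr (isAlgebraic_algebraMap c)

lemma adjoin_sub_const (t : Ω) (c : ℂ) : ℂ⟮t - algebraMap ℂ Ω c⟯ = ℂ⟮t⟯ := by
  apply le_antisymm
  · rw [IntermediateField.adjoin_simple_le_iff]
    exact sub_mem (IntermediateField.mem_adjoin_simple_self ℂ t) (IntermediateField.algebraMap_mem _ c)
  · rw [IntermediateField.adjoin_simple_le_iff]
    have h1 := IntermediateField.mem_adjoin_simple_self ℂ (t - algebraMap ℂ Ω c)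
    have h2 := add_mem h1 (IntermediateField.algebraMap_mem ℂ⟮t - algebraMap ℂ Ω c⟯ c)
    rwa [sub_add_cancel] at h2

lemma transcendental_sub_const {t : Ω} (htr : Transcendental ℂ t) (c : ℂ) :
    Transcendental ℂ (t - algebraMap ℂ Ω c) := by
  intro h
  apply htr
  have := h.add (isAlgebraic_algebraMap (A := Ω) c)
  rwa [sub_add_cancel] at this

lemma transcendental_inv {t : Ω} (htr : Transcendental ℂ t) : Transcendental ℂ t⁻¹ := by
  intro h
  exact htr (by simpa using h.inv)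

lemma relfinrank_self' (K : IntermediateField ℂ Ω) : K.relfinrank K = 1 :=
  IntermediateField.relfinrank_self K

variable [CurveUniverse Ω]

/-- a zero of `z` with `ℂ(z) = ℂ(t)` is simple on `ℂ(t)` -/
lemma ordO_adjoin_eq_one {t z : Ω} (htr : Transcendental ℂ t) (hz : Transcendental ℂ z)
    (he : ℂ⟮z⟯ = ℂ⟮t⟯) {v : Pt Ω} (hv : v.ring.valuation z < 1) : ordO v ℂ⟮t⟯ z = 1 := by
  have hff := ff_adjoin htr
  have hzmem : z ∈ ℂ⟮t⟯ := he ▸ IntermediateField.mem_adjoin_simple_self ℂ z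
  have hz0 : z ≠ 0 := by
    rintro rfl
    exact hz isAlgebraic_zero
  have hsum := sum_zeros_ordO hff hzmem hz
  rw [he, relfinrank_self', Nat.cast_one] at hsum
  have hfin := finite_ordO hff z
  have h1 := finsum_single_le_one (fun P : Pl ℂ⟮t⟯ => ordO P.pt ℂ⟮t⟯ z)
    {P : Pl ℂ⟮t⟯ | 0 < ordO P.pt ℂ⟮t⟯ z}
    (hfin.subset (fun P hP => hP.2)) (fun P hP => hP) hsum (a := Pl.mk ℂ⟮t⟯ v) (by
      change 0 < ordO (Pl.mk ℂ⟮t⟯ v).pt ℂ⟮t⟯ z
      rw [ordO_congr _ (Pl.sameOn_pt_mk ℂ⟮t⟯ v)]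
      exact (ordO_pos_iff v hff hzmem hz0).mpr hv)
  rw [← h1]
  exact (ordO_congr _ (Pl.sameOn_pt_mk ℂ⟮t⟯ v)).symm

lemma adjoin_le' {K : IntermediateField ℂ Ω} {t : Ω} (ht : t ∈ K) : ℂ⟮t⟯ ≤ K := by
  rwa [IntermediateField.adjoin_simple_le_iff]

lemma e_eq_ordO_of_val_coe {K : IntermediateField ℂ Ω} (hK : FF K) {t : Ω} (ht : t ∈ K)
    (htr : Transcendental ℂ t) {v : Pt Ω} {c : ℂ} (h : val v t = (c : OnePoint ℂ)) :
    (e v ℂ⟮t⟯ K : ℤ) = ordO v K (t - algebraMap ℂ Ω c) := by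
  have hff := ff_adjoin htr
  have hmem : t - algebraMap ℂ Ω c ∈ ℂ⟮t⟯ := sub_mem
    (IntermediateField.mem_adjoin_simple_self ℂ t) (IntermediateField.algebraMap_mem _ c)
  rw [pt_e_eq_eV v hff hK (adjoin_le' ht), ordO_eq_eV_mul v hff hK (adjoin_le' ht) hmem,
    ordO_adjoin_eq_one htr (transcendental_sub_const htr c) (adjoin_sub_const t c)
      ((pt_val_eq_coe_iff v t c).mp h), mul_one]

lemma e_eq_ordO_of_val_infty {K : IntermediateField ℂ Ω} (hK : FF K) {t : Ω} (ht : t ∈ K)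
    (htr : Transcendental ℂ t) {v : Pt Ω} (h : val v t = OnePoint.infty) :
    (e v ℂ⟮t⟯ K : ℤ) = -ordO v K t := by
  have hff := ff_adjoin htr
  have ht0 : t ≠ 0 := by
    rintro rfl
    exact htr isAlgebraic_zero
  have hmem : t⁻¹ ∈ ℂ⟮t⟯ := inv_mem (IntermediateField.mem_adjoin_simple_self ℂ t)
  have hmem' : t ∈ ℂ⟮t⟯ := IntermediateField.mem_adjoin_simple_self ℂ t
  have hlt : ordO v ℂ⟮t⟯ t < 0 := by
    rw [← not_le, ordO_nonneg_iff v hff hmem' ht0, pt_mem_ring_iff]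
    simpa using h
  have hv : v.ring.valuation t⁻¹ < 1 := by
    rw [← ordO_pos_iff v hff hmem (inv_ne_zero ht0), ordO_inv v hff hmem']
    omega
  have h1 := ordO_adjoin_eq_one htr (transcendental_inv htr) (adjoin_inv_eq t) hv
  rw [ordO_inv v hff hmem'] at h1
  rw [pt_e_eq_eV v hff hK (adjoin_le' ht), ordO_eq_eV_mul v hff hK (adjoin_le' ht) hmem']
  have h2 : ordO v ℂ⟮t⟯ t = -1 := by omega
  rw [h2]
  ring

lemma pole_iff {K : IntermediateField ℂ Ω} (hK : FF K) {t : Ω} (ht : t ∈ K)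
    (htr : Transcendental ℂ t) (v : Pt Ω) : val v t = OnePoint.infty ↔ 0 < ordO v K t⁻¹ := by
  have ht0 : t ≠ 0 := by
    rintro rfl
    exact htr isAlgebraic_zero
  rw [ordO_inv v hK ht]
  have h1 := ordO_nonneg_iff v hK ht ht0
  have h2 := pt_mem_ring_iff v t
  constructor
  · intro h
    have : ¬ (0 ≤ ordO v K t) := by
      rw [h1, h2]
      simpa using h
    omega
  · intro h
    have h3 : ¬ (0 ≤ ordO v K t) := by omega
    rw [h1, h2] at h3
    simpa using h3

open Classical in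
lemma ordD_eq {K : IntermediateField ℂ Ω} (hK : FF K) {t : Ω} (ht : t ∈ K)
    (htr : Transcendental ℂ t) (v : Pt Ω) :
    ordD v K t = ((e v ℂ⟮t⟯ K : ℤ) - 1) - 2 * (if 0 < ordO v K t⁻¹ then ordO v K t⁻¹ else 0) := by
  rcases hval : val v t with _ | c
  · change val v t = OnePoint.infty at hval
    rw [if_pos ((pole_iff hK ht htr v).mp hval), ordD_of_val_infty hval,
      e_eq_ordO_of_val_infty hK ht htr hval, ordO_inv v hK ht]
    ring
  · change val v t = (c : OnePoint ℂ) at hval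
    rw [if_neg (by
      rw [← pole_iff hK ht htr v, hval]
      exact OnePoint.coe_ne_infty c), ordD_of_val_coe hval, e_eq_ordO_of_val_coe hK ht htr hval]
    ring

lemma e_pos' {K K' : IntermediateField ℂ Ω} (v : Pt Ω) (hK : FF K) (hK' : FF K') (h : K ≤ K') :
    0 < e v K K' := by
  rw [pt_e_eq_eV v hK hK' h]
  exact eV_pos v hK hK' h

lemma cast_Ram {K K' : IntermediateField ℂ Ω} (hK : FF K) (hK' : FF K') (h : K ≤ K') :
    (Ram K K' : ℤ) = ∑ᶠ P : Pl K', ((e P.pt K K' : ℤ) - 1) := by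
  unfold Ram
  have hfin : (Function.support fun P : Pl K' => (e P.pt K K' - 1)).Finite := by
    apply (pt_finite_ram hK hK' h).subset
    intro P hP
    rw [Function.mem_support] at hP
    rw [Set.mem_ofPred_eq]
    omega
  have h1 := (Nat.castAddMonoidHom ℤ).map_finsum hfin
  simp only [Nat.coe_castAddMonoidHom] at h1
  rw [h1]
  apply finsum_congr
  intro P
  have := e_pos' P.pt hK hK' h
  rw [Nat.cast_sub (by omega), Nat.cast_one]

theorem chiOver_eq_sum {K : IntermediateField ℂ Ω} (hK : FF K) {t : Ω} (ht : t ∈ K)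
    (htr : Transcendental ℂ t) :
    {P : Pl K | ordD P.pt K t ≠ 0}.Finite ∧ chiOver t K = -∑ᶠ P : Pl K, ordD P.pt K t := by
  classical
  have hff := ff_adjoin htr
  have hle : ℂ⟮t⟯ ≤ K := adjoin_le' ht
  have hfin1 := pt_finite_ram hff hK hle
  have hfin2 := finite_ordO hK t⁻¹
  have hsup1 : (Function.support fun P : Pl K => ((e P.pt ℂ⟮t⟯ K : ℤ) - 1)).Finite := by
    apply hfin1.subset
    intro P hP
    rw [Function.mem_support] at hP
    rw [Set.mem_ofPred_eq]
    intro h1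
    rw [h1] at hP
    simp at hP
  have hsup2 : (Function.support fun P : Pl K =>
      (2 * (if 0 < ordO P.pt K t⁻¹ then ordO P.pt K t⁻¹ else 0) : ℤ)).Finite := by
    apply hfin2.subset
    intro P hP
    rw [Function.mem_support] at hP
    rw [Set.mem_ofPred_eq]
    intro h1
    rw [h1] at hP
    simp at hP
  constructor
  · apply (hsup1.union hsup2).subset
    intro P hP
    rw [Set.mem_ofPred_eq, ordD_eq hK ht htr] at hP
    rw [Set.mem_union, Function.mem_support, Function.mem_support]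
    by_contra hcon
    push Not at hcon
    rw [hcon.1, hcon.2] at hP
    simp at hP
  · have h1 : ∑ᶠ P : Pl K, ordD P.pt K t = ∑ᶠ P : Pl K, ((e P.pt ℂ⟮t⟯ K : ℤ) - 1)
        - ∑ᶠ P : Pl K, (2 * (if 0 < ordO P.pt K t⁻¹ then ordO P.pt K t⁻¹ else 0) : ℤ) := by
      rw [← finsum_sub_distrib hsup1 hsup2]
      exact finsum_congr fun P => ordD_eq hK ht htr P.pt
    have htinv : t⁻¹ ∈ K := inv_mem ht
    have h2 := sum_zeros_ordO hK htinv (transcendental_inv htr)
    rw [adjoin_inv_eq t] at h2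
    have h3 : ∑ᶠ P : Pl K, (2 * (if 0 < ordO P.pt K t⁻¹ then ordO P.pt K t⁻¹ else 0) : ℤ)
        = 2 * (ℂ⟮t⟯.relfinrank K : ℤ) := by
      rw [← h2, finsum_mem_def, mul_finsum]
      apply finsum_congr
      intro P
      congr 1
      rw [Set.indicator_apply]
      rfl
    rw [h1, h3, ← cast_Ram hff hK hle, chiOver]
    ring

theorem chiOver_indep {K : IntermediateField ℂ Ω} (hK : FF K) {s t : Ω} (hs : s ∈ K)
    (ht : t ∈ K) (hstr : Transcendental ℂ s) (htr : Transcendental ℂ t) :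
    chiOver s K = chiOver t K := by
  obtain ⟨f, hf, hf0, hord⟩ := exists_ordD_change hK hs ht hstr htr
  obtain ⟨h1, h2⟩ := chiOver_eq_sum hK hs hstr
  obtain ⟨h3, h4⟩ := chiOver_eq_sum hK ht htr
  rw [h2, h4]
  congr 1
  have h5 : ∑ᶠ P : Pl K, ordD P.pt K s = ∑ᶠ P : Pl K, (ordO P.pt K f + ordD P.pt K t) :=
    finsum_congr fun P => hord P.pt
  rw [h5, finsum_add_distrib (finite_ordO hK f) h3, sum_ordO hK f, zero_add]

theorem pt_chi_eq_chiOver {K : IntermediateField ℂ Ω} (hK : FF K) {t : Ω} (ht : t ∈ K)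
    (htr : Transcendental ℂ t) : chi K = chiOver t K := by
  have hex : ∃ t ∈ K, Transcendental ℂ t := ⟨t, ht, htr⟩
  unfold chi
  rw [dif_pos hex]
  exact chiOver_indep hK hex.choose_spec.1 ht hex.choose_spec.2 htr

theorem pt_chi_adjoin {y : Ω} (hy : Transcendental ℂ y) : chi ℂ⟮y⟯ = 2 := by
  rw [pt_chi_eq_chiOver (ff_adjoin hy) (IntermediateField.mem_adjoin_simple_self ℂ y) hy, chiOver,
    relfinrank_self', Ram]
  simp [e_self]

lemma exists_transcendental {K : IntermediateField ℂ Ω} (hK : FF K) :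
    ∃ t ∈ K, Transcendental ℂ t := by
  by_contra hcon
  push Not at hcon
  apply hK.2
  rw [eq_bot_iff]
  intro z hz
  have h1 := hcon z hz
  rw [Transcendental, not_not] at h1
  have hint := h1.isIntegral
  have h2 := IsAlgClosed.degree_eq_one_of_irreducible ℂ (minpoly.irreducible hint)
  have h3 := minpoly.mem_range_of_degree_eq_one ℂ z h2
  rw [IntermediateField.mem_bot]
  exact h3

/-- restriction of places -/
def Pl.res {K K' : IntermediateField ℂ Ω} (h : K ≤ K') : Pl K' → Pl K :=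
  Quotient.map' id (fun _ _ hvw => SameOn.mono h hvw)

lemma Pl.res_mk {K K' : IntermediateField ℂ Ω} (h : K ≤ K') (v : Pt Ω) :
    Pl.res h (Pl.mk K' v) = Pl.mk K v := rfl

lemma Pl.res_eq_iff {K K' : IntermediateField ℂ Ω} (h : K ≤ K') (P : Pl K') (v : Pt Ω) :
    Pl.res h P = Pl.mk K v ↔ SameOn K P.pt v := by
  conv_lhs => rw [← Pl.mk_pt P]
  rw [Pl.res_mk, Pl.mk_eq_mk]

theorem Ram_trans {K₀ K K' : IntermediateField ℂ Ω} (hK₀ : FF K₀) (hK : FF K) (hK' : FF K')
    (h₀ : K₀ ≤ K) (h : K ≤ K') :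
    (Ram K₀ K' : ℤ) = Ram K K' + K.relfinrank K' * Ram K₀ K := by
  classical
  rw [cast_Ram hK₀ hK' (h₀.trans h), cast_Ram hK hK' h, cast_Ram hK₀ hK h₀]
  have hf1 := pt_finite_ram hK₀ hK' (h₀.trans h)
  have hf2 := pt_finite_ram hK hK' h
  have hf3 := pt_finite_ram hK₀ hK h₀
  -- multiplicativity at each place
  have hmul : ∀ P : Pl K', (e P.pt K₀ K' : ℤ)
      = e (Pl.res h P).pt K₀ K * e P.pt K K' := by
    intro P
    have h1 : SameOn K (Pl.res h P).pt P.pt := by
      have h2 := (Pl.res_eq_iff h P P.pt).mpr (SameOn.refl K P.pt)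
      rw [h2]
      exact Pl.sameOn_pt_mk K P.pt
    rw [pt_e_congr hK₀ hK h₀ h1, e_mul P.pt h₀ h]
    push_cast
    ring
  have hsplit : ∀ P : Pl K', (e P.pt K₀ K' : ℤ) - 1 = ((e P.pt K K' : ℤ) - 1)
      + (e P.pt K K' : ℤ) * ((e (Pl.res h P).pt K₀ K : ℤ) - 1) := by
    intro P
    rw [hmul P]
    ring
  have hs1 : (Function.support fun P : Pl K' => ((e P.pt K K' : ℤ) - 1)).Finite := by
    apply hf2.subset
    intro P hP
    rw [Function.mem_support] at hP
    rw [Set.mem_ofPred_eq]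
    intro h1
    rw [h1] at hP
    simp at hP
  -- finiteness of fibres
  have hfib : ∀ Q : Pl K, {P : Pl K' | Pl.res h P = Q}.Finite := by
    intro Q
    have := finite_over Q.pt hK hK' h
    apply this.subset
    intro P hP
    rw [Set.mem_ofPred_eq] at hP ⊢
    rw [← Pl.res_eq_iff h, hP, Pl.mk_pt]
  set A : Set (Pl K) := {Q | e Q.pt K₀ K ≠ 1} with hA
  have hpre : {P : Pl K' | Pl.res h P ∈ A}.Finite := by
    have : {P : Pl K' | Pl.res h P ∈ A} = ⋃ Q ∈ A, {P : Pl K' | Pl.res h P = Q} := by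
      ext P
      simp
    rw [this]
    exact hf3.biUnion fun Q _ => hfib Q
  have hs2 : (Function.support fun P : Pl K' =>
      (e P.pt K K' : ℤ) * ((e (Pl.res h P).pt K₀ K : ℤ) - 1)).Finite := by
    apply hpre.subset
    intro P hP
    rw [Function.mem_support] at hP
    rw [Set.mem_ofPred_eq, hA, Set.mem_ofPred_eq]
    intro h1
    rw [h1] at hP
    simp at hP
  rw [finsum_congr hsplit, finsum_add_distrib hs1 hs2]
  congr 1
  -- the double sum
  have hsA : ∑ᶠ Q : Pl K, ((e Q.pt K₀ K : ℤ) - 1) = ∑ Q ∈ hf3.toFinset, ((e Q.pt K₀ K : ℤ) - 1) := by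
    apply finsum_eq_sum_of_support_subset
    intro Q hQ
    rw [Function.mem_support] at hQ
    rw [Finset.mem_coe, Set.Finite.mem_toFinset, Set.mem_ofPred_eq]
    intro h1
    rw [h1] at hQ
    simp at hQ
  have hsB : ∑ᶠ P : Pl K', (e P.pt K K' : ℤ) * ((e (Pl.res h P).pt K₀ K : ℤ) - 1)
      = ∑ P ∈ hpre.toFinset, (e P.pt K K' : ℤ) * ((e (Pl.res h P).pt K₀ K : ℤ) - 1) := by
    apply finsum_eq_sum_of_support_subset
    intro P hP
    rw [Function.mem_support] at hP
    rw [Finset.mem_coe, Set.Finite.mem_toFinset, Set.mem_ofPred_eq, hA, Set.mem_ofPred_eq]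
    intro h1
    rw [h1] at hP
    simp at hP
  rw [hsA, hsB, Finset.mul_sum, ← Finset.sum_fiberwise_of_maps_to (s := hpre.toFinset)
    (t := hf3.toFinset) (g := Pl.res h) (by
      intro P hP
      rw [Set.Finite.mem_toFinset] at hP ⊢
      exact hP)]
  apply Finset.sum_congr rfl
  intro Q hQ
  have hsum := sum_eV Q.pt hK hK' h
  have hsum' : ∑ P ∈ hpre.toFinset.filter (fun P => Pl.res h P = Q), (e P.pt K K' : ℤ)
      = K.relfinrank K' := by
    rw [← hsum]
    rw [finsum_mem_eq_sum_of_inter_support_eq (t := hpre.toFinset.filter (fun P => Pl.res h P = Q))]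
    · push_cast
      apply Finset.sum_congr rfl
      intro P _
      rw [pt_e_eq_eV P.pt hK hK' h]
    · congr 1
      ext P
      rw [Set.mem_ofPred_eq, Finset.mem_coe, Finset.mem_filter, Set.Finite.mem_toFinset,
        Set.mem_ofPred_eq, ← Pl.res_eq_iff h, Pl.mk_pt]
      constructor
      · intro h1
        refine ⟨?_, h1⟩
        rw [h1]
        rwa [Set.Finite.mem_toFinset] at hQ
      · intro h1
        exact h1.2
  calc ∑ P ∈ hpre.toFinset.filter (fun P => Pl.res h P = Q),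
        (e P.pt K K' : ℤ) * ((e (Pl.res h P).pt K₀ K : ℤ) - 1)
      = ∑ P ∈ hpre.toFinset.filter (fun P => Pl.res h P = Q),
        (e P.pt K K' : ℤ) * ((e Q.pt K₀ K : ℤ) - 1) := by
        apply Finset.sum_congr rfl
        intro P hP
        rw [Finset.mem_filter] at hP
        rw [hP.2]
    _ = _ := by rw [← Finset.sum_mul, hsum']

theorem pt_chi_eq {K K' : IntermediateField ℂ Ω} (hK : FF K) (hK' : FF K') (h : K ≤ K') :
    chi K' = K.relfinrank K' * chi K - Ram K K' := by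
  obtain ⟨t, ht, htr⟩ := exists_transcendental hK
  have hff := ff_adjoin htr
  rw [pt_chi_eq_chiOver hK' (h ht) htr, pt_chi_eq_chiOver hK ht htr, chiOver, chiOver,
    Ram_trans hff hK hK' (adjoin_le' ht) h]
  have h1 : ℂ⟮t⟯.relfinrank K' = ℂ⟮t⟯.relfinrank K * K.relfinrank K' :=
    (IntermediateField.relfinrank_mul_relfinrank (adjoin_le' ht) h).symm
  rw [h1]
  push_cast
  ring

/-- the bijection of places induced by an automorphism -/
noncomputable def Pl.map (g : Ω ≃ₐ[ℂ] Ω) (K : IntermediateField ℂ Ω) : Pl K ≃ Pl (mapF g K) where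
  toFun := Quotient.map' (fun v => g • v) (fun _ _ hvw => hvw.smul)
  invFun := Quotient.map' (fun v => g⁻¹ • v) (fun v w hvw => by
    have hvw' : SameOn (mapF g K) v w := hvw
    intro z hz
    rw [mem_smul_ring, mem_smul_ring]
    have e1 : (g⁻¹).symm z = g z := rfl
    rw [e1]
    exact hvw' (g z) (apply_mem_mapF.mpr hz))
  left_inv P := by
    induction P using Quotient.inductionOn' with
    | h v => exact congrArg (Pl.mk K) (inv_smul_smul g v)
  right_inv P := by
    induction P using Quotient.inductionOn' with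
    | h v => exact congrArg (Pl.mk (mapF g K)) (smul_inv_smul g v)

lemma ff_map (g : Ω ≃ₐ[ℂ] Ω) {K : IntermediateField ℂ Ω} (hK : FF K) : FF (mapF g K) := by
  refine ⟨?_, ?_⟩
  · obtain ⟨s, hs⟩ := hK.1
    classical
    refine ⟨s.image g, ?_⟩
    rw [← hs, Finset.coe_image]
    exact (IntermediateField.adjoin_map ℂ (s : Set Ω) (g : Ω →ₐ[ℂ] Ω)).symm
  · intro h
    apply hK.2
    rw [eq_bot_iff]
    intro z hz
    have h1 : g z ∈ (⊥ : IntermediateField ℂ Ω) := h ▸ apply_mem_mapF.mpr hz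
    rw [IntermediateField.mem_bot] at h1 ⊢
    obtain ⟨c, hc⟩ := h1
    refine ⟨c, g.injective ?_⟩
    rw [← hc]
    exact g.commutes c

theorem pt_chi_map (g : Ω ≃ₐ[ℂ] Ω) {K : IntermediateField ℂ Ω} (hK : FF K) :
    chi (mapF g K) = chi K := by
  obtain ⟨t, ht, htr⟩ := exists_transcendental hK
  have hgt : Transcendental ℂ (g t) := by
    intro h
    apply htr
    exact (isAlgebraic_algHom_iff (g : Ω →ₐ[ℂ] Ω) g.injective).mp h
  have hff := ff_adjoin htr
  have hadj : ℂ⟮g t⟯ = mapF g ℂ⟮t⟯ := by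
    have h := IntermediateField.adjoin_map ℂ ({t} : Set Ω) (g : Ω →ₐ[ℂ] Ω)
    rw [Set.image_singleton] at h
    exact h.symm
  rw [pt_chi_eq_chiOver (ff_map g hK) (apply_mem_mapF.mpr ht) hgt, pt_chi_eq_chiOver hK ht htr,
    chiOver, chiOver, hadj]
  have h1 : (mapF g ℂ⟮t⟯).relfinrank (mapF g K) = ℂ⟮t⟯.relfinrank K :=
    IntermediateField.relfinrank_map_map _ _ _
  have h2 : Ram (mapF g ℂ⟮t⟯) (mapF g K) = Ram ℂ⟮t⟯ K := by
    unfold Ram
    rw [← finsum_comp_equiv (Pl.map g K)]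
    apply finsum_congr
    intro P
    congr 1
    have h3 : SameOn (mapF g K) (Pl.map g K P).pt (g • P.pt) := by
      rw [← Pl.mk_eq_mk, Pl.mk_pt]
      conv_lhs => rw [← Pl.mk_pt P]
      rfl
    rw [pt_e_congr (hadj ▸ ff_adjoin hgt) (ff_map g hK)
      (by
        rw [← hadj, IntermediateField.adjoin_simple_le_iff]
        exact apply_mem_mapF.mpr ht) h3, e_smul]
  rw [h1, h2]

end Pool.Agent.Helper63.Pak
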