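import Mathlib
import Pool.Agent.Helper11.CurveDegree

/-! The derivation `d/dt` of a function field of one variable (piece PT-G of MP_005844). -/

open IntermediateField TensorProduct Polynomial
open scoped IntermediateField.algebraAdjoinAdjoin

namespace Pool.Agent.Helper82.Pak

variable {k F : Type} [Field k] [Field F] [Algebra k F]

/-- the constants of a derivation -/
def constField (D : Derivation k F F) : IntermediateField k F where
  carrier := {f | D f = 0}
  mul_mem' {a b} ha hb := by
    simp only [Set.mem_ofPred_eq] at ha hb ⊢
    rw [D.leibniz, ha, hb, smul_zero, smul_zero, add_zero]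
  add_mem' {a b} ha hb := by
    simp only [Set.mem_ofPred_eq] at ha hb ⊢
    rw [map_add, ha, hb, add_zero]
  algebraMap_mem' c := by
    simp only [Set.mem_ofPred_eq]
    exact D.map_algebraMap c
  inv_mem' a ha := by
    simp only [Set.mem_ofPred_eq] at ha ⊢
    rw [D.leibniz_inv, ha, smul_zero]

lemma mem_constField {D : Derivation k F F} {f : F} : f ∈ constField D ↔ D f = 0 := Iff.rfl

/-- a derivation vanishing at `t` is zero if `F` is algebraic over `k(t)` -/
theorem deriv_eq_zero [CharZero k] {t : F} (halg : Algebra.IsAlgebraic k⟮t⟯ F)
    (D : Derivation k F F) (h : D t = 0) : D = 0 := by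
  have hle : k⟮t⟯ ≤ constField D := by
    rw [IntermediateField.adjoin_simple_le_iff]
    exact h
  have : CharZero F := charZero_of_injective_algebraMap (algebraMap k F).injective
  ext f
  let : Algebra k⟮t⟯ (constField D) := (IntermediateField.inclusion hle).toRingHom.toAlgebra
  have : IsScalarTower k⟮t⟯ (constField D) F := IsScalarTower.of_algebraMap_eq fun x => rfl
  have h1 : IsAlgebraic (constField D) f := (halg.isAlgebraic f).tower_top _
  have hint : IsIntegral (constField D) f := h1.isIntegral
  set q := minpoly (constField D) f with hq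
  let D' : Derivation (constField D) F F :=
    { toFun := D
      map_add' := D.map_add
      map_smul' := fun c f => by
        change D ((c : F) * f) = (c : F) * D f
        rw [D.leibniz, mem_constField.mp c.2, smul_zero, add_zero, smul_eq_mul]
      map_one_eq_zero' := D.map_one_eq_zero
      leibniz' := D.leibniz }
  have h2 : D' (aeval f q) = aeval f (derivative q) • D' f := D'.map_aeval q f
  rw [hq, minpoly.aeval, map_zero] at h2
  have hchar : CharZero (constField D) :=
    charZero_of_injective_algebraMap (algebraMap k (constField D)).injective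
  have hsep : (minpoly (constField D) f).Separable := (minpoly.irreducible hint).separable
  have h3 : aeval f (derivative (minpoly (constField D) f)) ≠ 0 :=
    hsep.aeval_derivative_ne_zero (minpoly.aeval _ _)
  rw [eq_comm, smul_eq_mul, mul_eq_zero] at h2
  rcases h2 with h2 | h2
  · exact absurd h2 h3
  · exact h2

/-- two derivations that agree at `t` are equal -/
theorem deriv_unique [CharZero k] {t : F} (halg : Algebra.IsAlgebraic k⟮t⟯ F)
    (D D' : Derivation k F F) (h : D t = D' t) : D = D' := by
  have := deriv_eq_zero halg (D - D') (by rw [Derivation.sub_apply, h, sub_self])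
  exact sub_eq_zero.mp this

/-- existence of `d/dt` -/
theorem exists_deriv [CharZero k] {t : F} (ht : Transcendental k t)
    (halg : Algebra.IsAlgebraic k⟮t⟯ F) : ∃ D : Derivation k F F, D t = 1 := by
  let alg : Algebra k[X] F := (Polynomial.aeval t).toRingHom.toAlgebra
  have hmap : ∀ p : k[X], algebraMap k[X] F p = aeval t p := fun p => rfl
  have tow : IsScalarTower k k[X] F := IsScalarTower.of_algebraMap_eq fun c => by
    rw [hmap, Polynomial.algebraMap_eq, aeval_C]
  have faith : FaithfulSMul k[X] F := by
    rw [faithfulSMul_iff_algebraMap_injective]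
    exact transcendental_iff_injective.mp ht
  let algK : Algebra (FractionRing k[X]) F := FractionRing.liftAlgebra k[X] F
  have towK : IsScalarTower k[X] (FractionRing k[X]) F :=
    FractionRing.isScalarTower_liftAlgebra k[X] F
  have : CharZero (FractionRing k[X]) :=
    charZero_of_injective_algebraMap (algebraMap k (FractionRing k[X])).injective
  have halgA : Algebra.IsAlgebraic k[X] F := by
    have h0 : Algebra.IsAlgebraic (Algebra.adjoin k {t}) F :=
      (IsFractionRing.comap_isAlgebraic_iff (A := Algebra.adjoin k {t}) (K := k⟮t⟯) (C := F)).mpr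
        halg
    exact Algebra.IsAlgebraic.of_ringHom_of_comp_eq (S := Algebra.adjoin k {t}) (B := F)
      (Polynomial.algEquivOfTranscendental k t ht).toRingEquiv (RingHom.id F)
      (Polynomial.algEquivOfTranscendental k t ht).surjective Function.injective_id (by
        ext p
        · simp [hmap]
        · simp [hmap])
  have halgK : Algebra.IsAlgebraic (FractionRing k[X]) F :=
    (IsFractionRing.comap_isAlgebraic_iff (A := k[X]) (K := FractionRing k[X]) (C := F)).mp halgA
  have : Algebra.IsSeparable (FractionRing k[X]) F := inferInstance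
  have e1 : Algebra.FormallyEtale (FractionRing k[X]) F :=
    Algebra.FormallyEtale.of_isSeparable _ _
  have e2 : Algebra.FormallyEtale k[X] (FractionRing k[X]) :=
    Algebra.FormallyEtale.of_isLocalization (nonZeroDivisors k[X])
  have e3 : Algebra.FormallyEtale k[X] F := Algebra.FormallyEtale.comp k[X] (FractionRing k[X]) F
  let e := KaehlerDifferential.tensorKaehlerEquivOfFormallyEtale k k[X] F
  let ℓ : (Ω[k[X]⁄k]) →ₗ[k[X]] F :=
    (Algebra.linearMap k[X] F) ∘ₗ (KaehlerDifferential.polynomialEquiv k).toLinearMap
  let ψ : F ⊗[k[X]] (Ω[k[X]⁄k]) →ₗ[F] F := LinearMap.liftBaseChange F ℓ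
  refine ⟨(ψ ∘ₗ e.symm.toLinearMap).compDer (KaehlerDifferential.D k F), ?_⟩
  have ht' : t = algebraMap k[X] F X := by rw [hmap, aeval_X]
  change ψ (e.symm (KaehlerDifferential.D k F t)) = 1
  rw [ht', KaehlerDifferential.tensorKaehlerEquivOfFormallyEtale_symm_D_algebraMap]
  change (1 : F) • ℓ (KaehlerDifferential.D k k[X] X) = 1
  rw [one_smul]
  change algebraMap k[X] F (KaehlerDifferential.polynomialEquiv k (KaehlerDifferential.D k k[X] X))
    = 1
  rw [KaehlerDifferential.polynomialEquiv_D, derivative_X, map_one]

/-- the constants of `d/dt` -/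
theorem mem_range_of_deriv_eq_zero [IsAlgClosed k] [CharZero k] (hF : Helper11.IsCurveField k F)
    {t : F} (ht : Transcendental k t) (D : Derivation k F F) (hD : D t = 1) {f : F}
    (hf : D f = 0) : f ∈ Set.range (algebraMap k F) := by
  by_contra hcon
  have hftr := Helper11.transcendental_of_not_mem hcon
  have h1 := Helper11.finiteDimensional_adjoin hF ht
  have h2 := Helper11.finiteDimensional_adjoin hF hftr
  obtain ⟨D', hD'⟩ := exists_deriv hftr inferInstance
  have h3 : D' = D' t • D := deriv_unique (t := t) inferInstance _ _ (by
    rw [Derivation.smul_apply, hD, smul_eq_mul, mul_one])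
  rw [h3, Derivation.smul_apply, hf, smul_zero] at hD'
  exact zero_ne_one hD'

end Pool.Agent.Helper82.Pak
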