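import Pool.Agent.Helper82.Pak.Deriv

/-! Local behaviour of the derivation `d/dπ` at a point with uniformiser `π`. -/

open IntermediateField Polynomial IsDedekindDomain
open scoped IntermediateField.algebraAdjoinAdjoin

namespace Pool.Agent.Helper82.Pak

open Helper11

variable {k F : Type} [Field k] [Field F] [Algebra k F]

section
variable (P : CurvePt k F)

lemma mul_pow_mem {π : F} (hπ : P.ord π = 1) (f : F) {m : ℕ} (hm : (P.ord f).natAbs ≤ m) :
    π ^ m * f ∈ P.ring := by
  have hπ0 : π ≠ 0 := by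
    rintro rfl
    simp at hπ
  rcases eq_or_ne f 0 with rfl | hf
  · rw [mul_zero]; exact zero_mem _
  rw [P.mem_ring_iff (mul_ne_zero (pow_ne_zero _ hπ0) hf), P.ord_mul (pow_ne_zero _ hπ0) hf,
    P.ord_pow hπ0, hπ]
  omega

lemma uniformiser_mem {π : F} (hπ : P.ord π = 1) : π ∈ P.ring := by
  have hπ0 : π ≠ 0 := by
    rintro rfl
    simp at hπ
  rw [P.mem_ring_iff hπ0]
  omega

/-- elements `s` of the local ring with `π ^ c * D s` in the local ring -/
def bddAlg (D : Derivation k F F) (π : F) (c : ℕ) : Subalgebra k F where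
  carrier := {s | s ∈ P.ring ∧ π ^ c * D s ∈ P.ring}
  mul_mem' {a b} ha hb := by
    simp only [Set.mem_ofPred_eq] at ha hb ⊢
    refine ⟨mul_mem ha.1 hb.1, ?_⟩
    have e : π ^ c * D (a * b) = a * (π ^ c * D b) + b * (π ^ c * D a) := by
      rw [D.leibniz, smul_eq_mul, smul_eq_mul]; ring
    rw [e]
    exact add_mem (mul_mem ha.1 hb.2) (mul_mem hb.1 ha.2)
  add_mem' {a b} ha hb := by
    simp only [Set.mem_ofPred_eq] at ha hb ⊢
    refine ⟨add_mem ha.1 hb.1, ?_⟩
    rw [map_add, mul_add]
    exact add_mem ha.2 hb.2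
  algebraMap_mem' r := by
    simp only [Set.mem_ofPred_eq]
    refine ⟨P.const_mem r, ?_⟩
    rw [D.map_algebraMap, mul_zero]
    exact zero_mem _

lemma mem_bddAlg {D : Derivation k F F} {π : F} {c : ℕ} {s : F} :
    s ∈ bddAlg P D π c ↔ s ∈ P.ring ∧ π ^ c * D s ∈ P.ring := Iff.rfl

/-- boundedness of `D` on the local ring -/
theorem exists_bound [IsAlgClosed k] [CharZero k] (hF : IsCurveField k F) {π : F}
    (hπ : P.ord π = 1) (D : Derivation k F F) (hD : D π = 1) :
    ∃ c : ℕ, 1 ≤ c ∧ ∀ f ∈ P.ring, π ^ c * D f ∈ P.ring := by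
  classical
  have hπtr : π ∉ Set.range (algebraMap k F) := by
    rintro ⟨a, rfl⟩
    rw [P.ord_algebraMap] at hπ
    omega
  have htr := transcendental_of_not_mem hπtr
  have := finiteDimensional_adjoin hF htr
  have : CharZero k⟮π⟯ := charZero_of_injective_algebraMap (algebraMap k k⟮π⟯).injective
  let R := Algebra.adjoin k {π}
  have : IsPrincipalIdealRing R :=
    IsPrincipalIdealRing.of_surjective (Polynomial.algEquivOfTranscendental k π htr).toRingEquiv
      (Polynomial.algEquivOfTranscendental k π htr).surjective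
  have : IsDedekindDomain R := inferInstance
  have : Algebra.IsSeparable k⟮π⟯ F := inferInstance
  let S := integralClosure R F
  have : IsFractionRing S F := integralClosure.isFractionRing_of_finite_extension k⟮π⟯ F
  have : IsDedekindDomain S := integralClosure.isDedekindDomain R k⟮π⟯ F
  have : Module.Finite R S := IsIntegralClosure.finite R k⟮π⟯ F S
  have htow : IsScalarTower k S F := inferInstance
  -- `R` and `S` lie in the local ring
  have hRP : ∀ r : R, algebraMap R F r ∈ P.ring := by
    intro r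
    have hle : Algebra.adjoin k {π} ≤
        ({ P.ring.toSubring with algebraMap_mem' := P.const_mem } : Subalgebra k F) := by
      rw [Algebra.adjoin_le_iff, Set.singleton_subset_iff]
      exact uniformiser_mem P hπ
    exact hle r.2
  have hSP : ∀ s : S, algebraMap S F s ∈ P.ring := by
    intro s
    have h1 : IsIntegral R (algebraMap S F s) :=
      (Algebra.IsIntegral.isIntegral (R := R) s).map (IsScalarTower.toAlgHom R S F)
    let ψ : R →+* P.ring := (algebraMap R F).codRestrict P.ring.toSubring hRP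
    let _ : Algebra R P.ring := ψ.toAlgebra
    have : IsScalarTower R P.ring F := IsScalarTower.of_algebraMap_eq fun r => rfl
    have h2 : IsIntegral P.ring (algebraMap S F s) := h1.tower_top
    obtain ⟨y, hy⟩ := IsIntegrallyClosed.algebraMap_eq_of_integral h2
    rw [← hy]
    exact y.2
  -- the bound on generators
  obtain ⟨B, hB⟩ := (inferInstance : Module.Finite R S).fg_top
  set c := (B.sup (fun b => (P.ord (D (algebraMap S F b))).natAbs)) + 1 with hc
  have hcB : ∀ b ∈ B, π ^ c * D (algebraMap S F b) ∈ P.ring := by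
    intro b hb
    apply mul_pow_mem P hπ
    have := Finset.le_sup (f := fun b => (P.ord (D (algebraMap S F b))).natAbs) hb
    omega
  have hRT : ∀ r : R, algebraMap R F r ∈ bddAlg P D π c := by
    intro r
    have hle : Algebra.adjoin k {π} ≤ bddAlg P D π c := by
      rw [Algebra.adjoin_le_iff, Set.singleton_subset_iff]
      change π ∈ bddAlg P D π c
      rw [mem_bddAlg]
      refine ⟨uniformiser_mem P hπ, ?_⟩
      rw [hD, mul_one]
      exact pow_mem (uniformiser_mem P hπ) c
    exact hle r.2
  have hST : ∀ s : S, algebraMap S F s ∈ bddAlg P D π c := by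
    intro s
    have hs : s ∈ Submodule.span R (B : Set S) := by rw [hB]; trivial
    induction hs using Submodule.span_induction with
    | mem x hx => exact ⟨hSP x, hcB x hx⟩
    | zero => rw [map_zero]; exact zero_mem _
    | add x y _ _ hx hy => rw [map_add]; exact add_mem hx hy
    | smul a x _ hx =>
      rw [Algebra.smul_def, map_mul, ← IsScalarTower.algebraMap_apply R S F]
      exact mul_mem (hRT a) hx
  refine ⟨c, by omega, ?_⟩
  obtain ⟨v, hv⟩ := exists_prime_of_le P hSP
  intro f hf
  have hf' : v.valuation F f ≤ 1 := by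
    rw [← hv] at hf
    exact hf
  obtain ⟨n, d, hnd⟩ := v.exists_primeCompl_mul_eq_of_integer f hf'
  have hd1 : P.val (algebraMap S F d) = 1 := by
    have e1 : P.val (algebraMap S F d) = v.valuation F (algebraMap S F d) := by
      rw [← hv]
      exact val_eq_of_ring_eq (ptOfPrime (k := k) v) v rfl _
    rw [e1]
    apply le_antisymm (v.valuation_le_one _)
    rw [← not_lt, v.valuation_lt_one_iff_mem]
    exact d.2
  have hd0 : algebraMap S F d ≠ 0 := by
    intro h0
    rw [h0, map_zero] at hd1
    exact zero_ne_one hd1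
  have hdinv : (algebraMap S F d)⁻¹ ∈ P.ring := by
    rw [P.mem_ring_iff_val, map_inv₀, hd1, inv_one]
  have hDn : D (algebraMap S F n) = f * D (algebraMap S F d) + algebraMap S F d * D f := by
    rw [← hnd, D.leibniz, smul_eq_mul, smul_eq_mul]
  have e2 : π ^ c * D f = (π ^ c * D (algebraMap S F n) - f * (π ^ c * D (algebraMap S F d)))
      * (algebraMap S F d)⁻¹ := by
    rw [hDn]
    field_simp
    ring
  rw [e2]
  exact mul_mem (sub_mem (hST n).2 (mul_mem hf (hST d).2)) hdinv

/-- Taylor expansion -/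
lemma exists_taylor (hres : ∀ f ∈ P.ring, ∃ c : k, P.val (f - algebraMap k F c) < 1) {π : F}
    (hπ : P.ord π = 1) {f : F} (hf : f ∈ P.ring) (m : ℕ) :
    ∃ q : k[X], ∃ g ∈ P.ring, f = aeval π q + π ^ m * g := by
  have hπ0 : π ≠ 0 := by
    rintro rfl
    simp at hπ
  induction m with
  | zero => exact ⟨0, f, hf, by simp⟩
  | succ m ih =>
    obtain ⟨q, g, hg, hfg⟩ := ih
    obtain ⟨c, hc⟩ := hres g hg
    refine ⟨q + C c * X ^ m, (g - algebraMap k F c) / π, ?_, ?_⟩
    · rcases eq_or_ne (g - algebraMap k F c) 0 with h0 | h0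
      · rw [h0, zero_div]; exact zero_mem _
      · rw [P.mem_ring_iff (div_ne_zero h0 hπ0), div_eq_mul_inv, P.ord_mul h0 (inv_ne_zero hπ0),
          P.ord_inv, hπ]
        have : 0 < P.ord (g - algebraMap k F c) := by
          rw [CurvePt.ord_def]
          rw [← WithZero.exp_log (P.val_ne_zero h0), ← WithZero.exp_zero, WithZero.exp_lt_exp] at hc
          omega
        omega
    · rw [hfg]
      simp only [map_add, map_mul, aeval_C, map_pow, aeval_X]
      field_simp
      ring

/-- `d/dπ` preserves the local ring -/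
theorem deriv_mem_ring [IsAlgClosed k] [CharZero k] (hF : IsCurveField k F)
    (hres : ∀ f ∈ P.ring, ∃ c : k, P.val (f - algebraMap k F c) < 1) {π : F}
    (hπ : P.ord π = 1) (D : Derivation k F F) (hD : D π = 1) {f : F} (hf : f ∈ P.ring) :
    D f ∈ P.ring := by
  obtain ⟨c, hc1, hc⟩ := exists_bound P hF hπ D hD
  obtain ⟨q, g, hg, rfl⟩ := exists_taylor P hres hπ hf c
  have hπm := uniformiser_mem P hπ
  rw [map_add, D.map_aeval, hD, D.leibniz, D.leibniz_pow, hD]
  simp only [smul_eq_mul, mul_one, nsmul_eq_mul]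
  have haev : ∀ q : k[X], aeval π q ∈ P.ring := by
    intro q
    have hle : Algebra.adjoin k {π} ≤
        ({ P.ring.toSubring with algebraMap_mem' := P.const_mem } : Subalgebra k F) := by
      rw [Algebra.adjoin_le_iff, Set.singleton_subset_iff]
      exact hπm
    exact hle (by rw [Algebra.adjoin_singleton_eq_range_aeval]; exact ⟨q, rfl⟩)
  refine add_mem (haev _) (add_mem (hc g hg) ?_)
  exact mul_mem hg (mul_mem (natCast_mem _ _) (pow_mem hπm _))

/-- `ord (df/dπ) = ord f - 1` if `ord f ≠ 0` -/
theorem ord_deriv [IsAlgClosed k] [CharZero k] (hF : IsCurveField k F)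
    (hres : ∀ f ∈ P.ring, ∃ c : k, P.val (f - algebraMap k F c) < 1) {π : F}
    (hπ : P.ord π = 1) (D : Derivation k F F) (hD : D π = 1) {f : F} (hf : P.ord f ≠ 0) :
    D f ≠ 0 ∧ P.ord (D f) = P.ord f - 1 := by
  have hπ0 : π ≠ 0 := by
    rintro rfl
    simp at hπ
  have hf0 : f ≠ 0 := by
    rintro rfl
    simp at hf
  set n := P.ord f with hn
  have hordz : ∀ m : ℤ, P.ord (π ^ m) = m := by
    intro m
    rcases Int.natAbs_eq m with h | h
    · rw [h, zpow_natCast, P.ord_pow hπ0, hπ, mul_one]
    · rw [h, zpow_neg, zpow_natCast, P.ord_inv, P.ord_pow hπ0, hπ, mul_one]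
  set u := f * π ^ (-n) with hu
  have hu0 : u ≠ 0 := mul_ne_zero hf0 (zpow_ne_zero _ hπ0)
  have hordu : P.ord u = 0 := by
    rw [hu, P.ord_mul hf0 (zpow_ne_zero _ hπ0), hordz, ← hn]
    ring
  have hfu : f = π ^ n * u := by
    rw [hu, zpow_neg]
    field_simp
  have huring : u ∈ P.ring := by rw [P.mem_ring_iff hu0, hordu]
  have hDu := deriv_mem_ring P hF hres hπ D hD huring
  set w := π * D u + (n : F) * u with hw
  have hDf : D f = π ^ (n - 1) * w := by
    conv_lhs => rw [hfu]
    rw [D.leibniz, D.leibniz_zpow, hD, hw]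
    simp only [smul_eq_mul, mul_one, zsmul_eq_mul]
    have e : π ^ n = π ^ (n - 1) * π := by
      rw [← zpow_add_one₀ hπ0]
      congr 1
      ring
    rw [e]
    ring
  have hvaln : P.val ((n : F) * u) = 1 := by
    have hn0 : ((n : k) : k) ≠ 0 := by exact_mod_cast hf
    have e1 : (n : F) = algebraMap k F (n : k) := by simp
    have hn0' : (n : F) ≠ 0 := by
      rw [e1]
      exact (_root_.map_ne_zero _).mpr hn0
    have h0 : P.ord ((n : F) * u) = 0 := by
      rw [P.ord_mul hn0' hu0, hordu, e1, P.ord_algebraMap, add_zero]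
    have h1 : (n : F) * u ≠ 0 := mul_ne_zero hn0' hu0
    rw [CurvePt.ord_def, neg_eq_zero] at h0
    rw [← WithZero.exp_log (P.val_ne_zero h1), h0, WithZero.exp_zero]
  have hvalπ : P.val (π * D u) < 1 := by
    rw [map_mul]
    have h1 : P.val π < 1 := by
      rw [← WithZero.exp_log (P.val_ne_zero hπ0), ← WithZero.exp_zero, WithZero.exp_lt_exp]
      rw [CurvePt.ord_def] at hπ
      omega
    have h2 : P.val (D u) ≤ 1 := P.mem_ring_iff_val.mp hDu
    calc P.val π * P.val (D u) ≤ P.val π * 1 := by gcongr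
      _ < 1 := by rw [mul_one]; exact h1
  have hvalw : P.val w = 1 := by
    rw [hw, (P.val).map_add_eq_of_lt_right (by rw [hvaln]; exact hvalπ), hvaln]
  have hw0 : w ≠ 0 := by
    intro h0
    rw [h0, map_zero] at hvalw
    exact zero_ne_one hvalw
  refine ⟨by rw [hDf]; exact mul_ne_zero (zpow_ne_zero _ hπ0) hw0, ?_⟩
  rw [hDf, P.ord_mul (zpow_ne_zero _ hπ0) hw0, hordz, CurvePt.ord_def P w, hvalw,
    WithZero.log_one, neg_zero, add_zero]

end

end Pool.Agent.Helper82.Pak
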