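import Pool.Agent.Helper50.Pak.PTE
import Pool.Agent.Helper82.Pak.Local

/-! Piece PT-G of MP_005844_an: differentials and the Euler characteristic. -/

namespace Pool.Agent.Helper63.Pak

open IntermediateField Pool.Agent.Helper11

variable {Ω : Type} [Field Ω] [Algebra ℂ Ω]

variable [CurveUniverse Ω]

/-- order of the differential `dt` at `v` on `K`: `ord (t - c) - 1` if `t (v) = c`,
`-|ord t| - 1` at a pole of `t` -/
noncomputable def ordD (v : Pt Ω) (K : IntermediateField ℂ Ω) (t : Ω) : ℤ :=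
  match val v t with
  | some c => ordO v K (t - algebraMap ℂ Ω c) - 1
  | none => ordO v K t - 1

lemma ordD_of_val_coe {v : Pt Ω} {K : IntermediateField ℂ Ω} {t : Ω} {c : ℂ}
    (h : val v t = (c : OnePoint ℂ)) : ordD v K t = ordO v K (t - algebraMap ℂ Ω c) - 1 := by
  unfold ordD
  rw [h]

lemma ordD_of_val_infty {v : Pt Ω} {K : IntermediateField ℂ Ω} {t : Ω}
    (h : val v t = OnePoint.infty) : ordD v K t = ordO v K t - 1 := by
  unfold ordD
  rw [h]

lemma ordO_eq {K : IntermediateField ℂ Ω} (hK : FF K) (v : Pt Ω) {z : Ω} (hz : z ∈ K) :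
    ordO v K z = (restr hK v).ord ⟨z, hz⟩ := by
  unfold ordO
  rw [dif_pos ⟨hK, hz⟩]

lemma restr_residue_val {K : IntermediateField ℂ Ω} (hK : FF K) (v : Pt Ω) :
    ∀ f ∈ (restr hK v).ring, ∃ c : ℂ, (restr hK v).val (f - algebraMap ℂ K c) < 1 := by
  intro f hf
  obtain ⟨c, hc⟩ := pt_exists_residue v ((mem_restr_ring hK v f).mp hf)
  refine ⟨c, ?_⟩
  rcases eq_or_ne (f - algebraMap ℂ K c) 0 with h0 | h0
  · rw [h0, map_zero]
    exact zero_lt_one
  · have hmem : (f : Ω) - algebraMap ℂ Ω c ∈ K := (f - algebraMap ℂ K c).2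
    have h0' : (f : Ω) - algebraMap ℂ Ω c ≠ 0 := fun h => h0 (Subtype.ext h)
    have h1 := (ordO_pos_iff v hK hmem h0').mpr hc
    rw [ordO_eq hK v hmem] at h1
    have h2 : (⟨(f : Ω) - algebraMap ℂ Ω c, hmem⟩ : K) = f - algebraMap ℂ K c := rfl
    rw [h2, CurvePt.ord_def] at h1
    rw [← WithZero.exp_log ((restr hK v).val_ne_zero h0), ← WithZero.exp_zero,
      WithZero.exp_lt_exp]
    omega

omit [CurveUniverse Ω] in
lemma transcendental_coe {K : IntermediateField ℂ Ω} {t : Ω} (ht : t ∈ K)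
    (htr : Transcendental ℂ t) : Transcendental ℂ (⟨t, ht⟩ : K) := by
  intro h
  exact htr (h.algebraMap (A := Ω))

lemma not_range_of_ord {K : IntermediateField ℂ Ω} (hK : FF K) {v : Pt Ω} {π : K}
    (h : (restr hK v).ord π ≠ 0) : Transcendental ℂ π := by
  apply transcendental_of_not_mem
  rintro ⟨a, rfl⟩
  exact h ((restr hK v).ord_algebraMap a)

/-- local behaviour of a derivation with `D t = 1` -/
theorem deriv_local {K : IntermediateField ℂ Ω} (hK : FF K) {t : Ω} (ht : t ∈ K)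
    (htr : Transcendental ℂ t) (D : Derivation ℂ K K) (hD : D ⟨t, ht⟩ = 1) (v : Pt Ω) :
    (∀ π : K, ordO v K π = 1 → ordO v K (D π : Ω) = -ordD v K t) ∧
    (∀ f : K, (f : Ω) ∈ v.ring → D f ≠ 0 → -ordD v K t ≤ ordO v K (D f : Ω)) := by
  have hF := hK.isCurveField
  set P := restr hK v with hP
  have hord : ∀ z : K, ordO v K (z : Ω) = P.ord z := fun z => ordO_eq hK v z.2
  have hres := restr_residue_val hK v
  -- the main computation
  have main : ∀ π : K, P.ord π = 1 → D π ≠ 0 ∧ P.ord (D π) = -ordD v K t ∧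
      ∀ f ∈ P.ring, D f ≠ 0 → P.ord (D π) ≤ P.ord (D f) := by
    intro π hπ
    have hπtr : Transcendental ℂ π := not_range_of_ord hK (v := v) (by rw [← hP, hπ]; exact one_ne_zero)
    have hfd := finiteDimensional_adjoin hF hπtr
    obtain ⟨Dp, hDp⟩ := Helper82.Pak.exists_deriv hπtr inferInstance
    have hDD : D = D π • Dp := Helper82.Pak.deriv_unique (t := π) inferInstance _ _ (by
      rw [Derivation.smul_apply, hDp, smul_eq_mul, mul_one])
    have hDf : ∀ f, D f = D π * Dp f := by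
      intro f
      conv_lhs => rw [hDD]
      rw [Derivation.smul_apply, smul_eq_mul]
    have h1 : D π * Dp ⟨t, ht⟩ = 1 := by rw [← hDf, hD]
    have hDπ0 : D π ≠ 0 := left_ne_zero_of_mul_eq_one h1
    have hDt0 : Dp ⟨t, ht⟩ ≠ 0 := right_ne_zero_of_mul_eq_one h1
    have hordD : P.ord (Dp ⟨t, ht⟩) = ordD v K t := by
      have ht0 : t ≠ 0 := by
        rintro rfl
        exact htr isAlgebraic_zero
      rcases hval : val v t with _ | c
      · change val v t = OnePoint.infty at hval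
        rw [ordD_of_val_infty hval]
        have hlt : ordO v K t < 0 := by
          rw [← not_le, ordO_nonneg_iff v hK ht ht0, pt_mem_ring_iff]
          simpa using hval
        rw [ordO_eq hK v ht, ← hP] at hlt ⊢
        exact (Helper82.Pak.ord_deriv P hF hres hπ Dp hDp hlt.ne).2
      · change val v t = (c : OnePoint ℂ) at hval
        rw [ordD_of_val_coe hval]
        have hmem : t - algebraMap ℂ Ω c ∈ K := sub_mem ht (K.algebraMap_mem c)
        have h0 : t - algebraMap ℂ Ω c ≠ 0 := by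
          intro h0
          rw [sub_eq_zero] at h0
          exact htr (h0 ▸ isAlgebraic_algebraMap c)
        have hgt := (ordO_pos_iff v hK hmem h0).mpr ((pt_val_eq_coe_iff v t c).mp hval)
        rw [ordO_eq hK v hmem, ← hP] at hgt ⊢
        have h2 := (Helper82.Pak.ord_deriv P hF hres hπ Dp hDp hgt.ne').2
        rw [← h2]
        congr 1
        have e : (⟨t - algebraMap ℂ Ω c, hmem⟩ : K) = ⟨t, ht⟩ - algebraMap ℂ K c := rfl
        rw [e, map_sub, Dp.map_algebraMap, sub_zero]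
    refine ⟨hDπ0, ?_, ?_⟩
    · have h3 : P.ord (D π * Dp ⟨t, ht⟩) = 0 := by rw [h1, CurvePt.ord_one]
      rw [P.ord_mul hDπ0 hDt0, hordD] at h3
      omega
    · intro f hf hDf0
      have h4 : Dp f ≠ 0 := by
        intro h4
        apply hDf0
        rw [hDf, h4, mul_zero]
      have h5 := Helper82.Pak.deriv_mem_ring P hF hres hπ Dp hDp hf
      rw [P.mem_ring_iff h4] at h5
      rw [hDf f, P.ord_mul hDπ0 h4]
      omega
  constructor
  · intro π hπ
    rw [hord] at hπ ⊢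
    exact (main π hπ).2.1
  · intro f hf hDf
    obtain ⟨π, hπK, hπ⟩ := exists_ordO_eq_one v hK
    have hπ' : P.ord ⟨π, hπK⟩ = 1 := by rw [← hπ, ordO_eq hK v hπK]
    obtain ⟨-, h1, h2⟩ := main ⟨π, hπK⟩ hπ'
    rw [hord, ← h1]
    exact h2 f hf hDf

/-- the derivation `d/dt` of `K`, with its local behaviour -/
theorem exists_derivation {K : IntermediateField ℂ Ω} (hK : FF K) {t : Ω} (ht : t ∈ K)
    (htr : Transcendental ℂ t) :
    ∃ D : Derivation ℂ K K, D ⟨t, ht⟩ = 1 ∧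
      (∀ f : K, D f = 0 → (f : Ω) ∈ (⊥ : IntermediateField ℂ Ω)) ∧
      ∀ v : Pt Ω, (∀ f : K, (f : Ω) ∈ v.ring → D f ≠ 0 → -ordD v K t ≤ ordO v K (D f : Ω)) ∧
        ∃ π : K, ordO v K π = 1 ∧ ordO v K (D π : Ω) = -ordD v K t := by
  have hF := hK.isCurveField
  have htr' := transcendental_coe ht htr
  have hfd := finiteDimensional_adjoin hF htr'
  obtain ⟨D, hD⟩ := Helper82.Pak.exists_deriv htr' inferInstance
  refine ⟨D, hD, ?_, ?_⟩
  · intro f hf
    obtain ⟨c, hc⟩ := Helper82.Pak.mem_range_of_deriv_eq_zero hF htr' D hD hf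
    rw [← hc]
    exact IntermediateField.algebraMap_mem _ c
  · intro v
    obtain ⟨h1, h2⟩ := deriv_local hK ht htr D hD v
    obtain ⟨π, hπK, hπ⟩ := exists_ordO_eq_one v hK
    exact ⟨h2, ⟨π, hπK⟩, hπ, h1 ⟨π, hπK⟩ hπ⟩

/-- change of the differential -/
theorem exists_ordD_change {K : IntermediateField ℂ Ω} (hK : FF K) {s t : Ω} (hs : s ∈ K)
    (ht : t ∈ K) (hstr : Transcendental ℂ s) (htr : Transcendental ℂ t) :
    ∃ f ∈ K, f ≠ 0 ∧ ∀ v : Pt Ω, ordD v K s = ordO v K f + ordD v K t := by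
  have hF := hK.isCurveField
  have htr' := transcendental_coe ht htr
  have hstr' := transcendental_coe hs hstr
  have hfd := finiteDimensional_adjoin hF htr'
  have hfd' := finiteDimensional_adjoin hF hstr'
  obtain ⟨D, hD⟩ := Helper82.Pak.exists_deriv htr' inferInstance
  obtain ⟨D', hD'⟩ := Helper82.Pak.exists_deriv hstr' inferInstance
  have hDD : D = D ⟨s, hs⟩ • D' := Helper82.Pak.deriv_unique (t := ⟨s, hs⟩) inferInstance _ _ (by
      rw [Derivation.smul_apply, hD', smul_eq_mul, mul_one])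
  have hDf : ∀ f, D f = D ⟨s, hs⟩ * D' f := by
    intro f
    conv_lhs => rw [hDD]
    rw [Derivation.smul_apply, smul_eq_mul]
  have h1 : D ⟨s, hs⟩ * D' ⟨t, ht⟩ = 1 := by rw [← hDf, hD]
  have h0 : D ⟨s, hs⟩ ≠ 0 := left_ne_zero_of_mul_eq_one h1
  refine ⟨D ⟨s, hs⟩, (D ⟨s, hs⟩).2, fun h => h0 (Subtype.ext h), ?_⟩
  intro v
  obtain ⟨π, hπK, hπ⟩ := exists_ordO_eq_one v hK
  have e1 := (deriv_local hK ht htr D hD v).1 ⟨π, hπK⟩ hπ
  have e2 := (deriv_local hK hs hstr D' hD' v).1 ⟨π, hπK⟩ hπ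
  have h2 : D' ⟨π, hπK⟩ ≠ 0 := by
    intro h2
    have hπtr : Transcendental ℂ (⟨π, hπK⟩ : K) := not_range_of_ord hK (v := v) (by
      rw [← ordO_eq hK v hπK, hπ]; exact one_ne_zero)
    obtain ⟨c, hc⟩ := Helper82.Pak.mem_range_of_deriv_eq_zero hF hstr' D' hD' h2
    exact hπtr (hc ▸ isAlgebraic_algebraMap c)
  rw [hDf ⟨π, hπK⟩] at e1
  have e3 : ordO v K ((D ⟨s, hs⟩ * D' ⟨π, hπK⟩ : K) : Ω)
      = ordO v K (D ⟨s, hs⟩ : Ω) + ordO v K (D' ⟨π, hπK⟩ : Ω) := by
    rw [IntermediateField.coe_mul]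
    exact ordO_mul v hK (D ⟨s, hs⟩).2 (D' ⟨π, hπK⟩).2 (fun h => h0 (Subtype.ext h))
      (fun h => h2 (Subtype.ext h))
  rw [e3, e2] at e1
  omega

end Pool.Agent.Helper63.Pak
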